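import Pool.Agent.U41.OD.Stm0

/-!
Project OD (helper41), package EA: the rescaled equation in the last chart.
-/

set_option autoImplicit false

namespace Pool.Agent.U41.OD

open MvPolynomial

theorem EA_aeval_coeff {R σ : Type} [CommRing R] (c : R) (g : MvPolynomial σ R) (m : σ →₀ ℕ) :
    coeff m (aeval (fun l => C c * X l : σ → MvPolynomial σ R) g) = c ^ m.degree * coeff m g := by
  classical
  induction g using MvPolynomial.induction_on' with
  | monomial n a =>
    have h1 : aeval (fun l => C c * X l : σ → MvPolynomial σ R) (monomial n a)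
        = C (c ^ n.degree) * monomial n a := by
      rw [aeval_monomial]
      have h2 : (n.prod fun i k => (C c * X i : MvPolynomial σ R) ^ k)
          = C (c ^ n.degree) * n.prod fun i k => (X i : MvPolynomial σ R) ^ k := by
        simp only [mul_pow]
        rw [Finsupp.prod_mul]
        congr 1
        rw [Finsupp.prod, Finset.prod_pow_eq_pow_sum, ← C_pow]
        rfl
      rw [h2, monomial_eq (s := n) (a := a), MvPolynomial.algebraMap_eq]
      ring
    rw [h1, coeff_C_mul, coeff_monomial]
    split_ifs with h
    · rw [h]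
    · simp
  | add p q hp hq =>
    rw [map_add, coeff_add, coeff_add, hp, hq]
    ring

theorem EA_term {R σ : Type} [CommRing R] (π : R) (k : ℕ) (g : MvPolynomial σ R) (hg : NodeR π k g)
    (u : R) (hu : constantCoeff g = π ^ k * u) (m : σ →₀ ℕ) :
    ∃ t : R, (m = 0 → t = 0) ∧ (coeff m g = 0 → t = 0) ∧
      (π ^ (k / 2)) ^ m.degree * coeff m g = π ^ (2 * (k / 2)) *
        (coeff m (homogeneousComponent 2 g) +
          coeff m (C (π ^ (k - 2 * (k / 2)) * u) : MvPolynomial σ R) + π * t) := by
  classical
  have hk := hg.le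
  have hJ : 1 ≤ k / 2 := by omega
  by_cases h0 : coeff m g = 0
  · by_cases hm : m = 0
    · subst hm
      refine ⟨0, fun _ => rfl, fun _ => rfl, ?_⟩
      have hc : coeff 0 g = π ^ k * u := hu
      rw [coeff_homogeneousComponent, coeff_C, if_pos rfl, map_zero, if_neg (by norm_num), hc, pow_zero]
      have h1 : π ^ k = π ^ (2 * (k / 2)) * π ^ (k - 2 * (k / 2)) := by
        rw [← pow_add]; congr 1; omega
      rw [h1]; ring
    · refine ⟨0, fun _ => rfl, fun _ => rfl, ?_⟩
      have hC : coeff m (C (π ^ (k - 2 * (k / 2)) * u) : MvPolynomial σ R) = 0 := by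
        rw [coeff_C, if_neg (fun h => hm h.symm)]
      rw [hC, coeff_homogeneousComponent, h0]
      simp
  · rcases Nat.lt_or_ge m.degree 1 with h | h
    · have hm : m = 0 := by
        rw [← Finsupp.degree_eq_zero_iff]; omega
      subst hm
      refine ⟨0, fun _ => rfl, fun _ => rfl, ?_⟩
      have hc : coeff 0 g = π ^ k * u := hu
      rw [coeff_homogeneousComponent, coeff_C, if_pos rfl, map_zero, if_neg (by norm_num), hc, pow_zero]
      have h1 : π ^ k = π ^ (2 * (k / 2)) * π ^ (k - 2 * (k / 2)) := by
        rw [← pow_add]; congr 1; omega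
      rw [h1]; ring
    · have hm0 : m ≠ 0 := by
        intro hm
        rw [hm, map_zero] at h
        omega
      have hC : coeff m (C (π ^ (k - 2 * (k / 2)) * u) : MvPolynomial σ R) = 0 := by
        rw [coeff_C, if_neg (fun h => hm0 h.symm)]
      rcases Nat.lt_or_ge m.degree 2 with h2 | h2
      · have hd1 : m.degree = 1 := by omega
        obtain ⟨l, hl⟩ : ∃ l, m = Finsupp.single l 1 := by
          obtain ⟨l, hl⟩ := Finsupp.ne_iff.mp hm0
          refine ⟨l, ?_⟩
          have hl1 : 1 ≤ m l := by
            simp only [Finsupp.coe_zero, Pi.zero_apply] at hl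
            omega
          have hle : Finsupp.single l 1 ≤ m := by
            rw [Finsupp.single_le_iff]; exact hl1
          have h3 : m = Finsupp.single l 1 + (m - Finsupp.single l 1) := (add_tsub_cancel_of_le hle).symm
          have h4 : m.degree = 1 + (m - Finsupp.single l 1).degree := by
            conv_lhs => rw [h3]
            rw [map_add, Finsupp.degree_single]
          have h5 : m - Finsupp.single l 1 = 0 := by
            rw [← Finsupp.degree_eq_zero_iff]; omega
          rw [h3, h5, add_zero]
        obtain ⟨b, hb⟩ := hg.lin l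
        refine ⟨π ^ (k - k / 2 - 1) * b, fun hm => absurd hm hm0, fun hc => absurd hc h0, ?_⟩
        rw [hC, coeff_homogeneousComponent, hd1, if_neg (by norm_num), hl, hb, pow_one]
        have h6 : π ^ (k / 2) * π ^ k = π ^ (2 * (k / 2)) * (π * π ^ (k - k / 2 - 1)) := by
          rw [← pow_succ', ← pow_add, ← pow_add]; congr 1; omega
        calc π ^ (k / 2) * (π ^ k * b) = (π ^ (k / 2) * π ^ k) * b := by ring
          _ = (π ^ (2 * (k / 2)) * (π * π ^ (k - k / 2 - 1))) * b := by rw [h6]
          _ = _ := by ring
      · rcases Nat.lt_or_ge m.degree 3 with h3 | h3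
        · have hd2 : m.degree = 2 := by omega
          refine ⟨0, fun _ => rfl, fun _ => rfl, ?_⟩
          rw [hC, coeff_homogeneousComponent, hd2, if_pos rfl]
          ring
        · obtain ⟨e, he⟩ : ∃ e, m.degree = e + 3 := ⟨m.degree - 3, by omega⟩
          obtain ⟨J, hJ'⟩ : ∃ J, k / 2 = J + 1 := ⟨k / 2 - 1, by omega⟩
          refine ⟨π ^ (J + (J + 1) * e) * coeff m g, fun hm => absurd hm hm0, fun hc => absurd hc h0, ?_⟩
          rw [hC, coeff_homogeneousComponent, he, if_neg (by omega), hJ']
          have h6 : (π ^ (J + 1)) ^ (e + 3) = π ^ (2 * (J + 1)) * (π * π ^ (J + (J + 1) * e)) := by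
            rw [← pow_succ', ← pow_add, ← pow_mul]; congr 1; ring
          rw [h6]
          ring

theorem EA_ok : S_EA := by
  classical
  intro R σ _ _ _ π k g hg
  obtain ⟨u, hu, hc⟩ := hg.const
  choose t ht0 htc ht using EA_term π k g hg u hc
  set T : MvPolynomial σ R := ∑ m ∈ g.support, monomial m (t m) with hT
  have hTc : ∀ m, coeff m T = t m := by
    intro m
    rw [hT, coeff_sum]
    simp only [coeff_monomial]
    rw [Finset.sum_ite_eq' g.support m t]
    split_ifs with h
    · rfl
    · exact (htc m (by simpa using h)).symm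
  refine ⟨homogeneousComponent 2 g + C (π ^ (k - 2 * (k / 2)) * u) + C π * T, T, u, hu, ?_, rfl, ?_⟩
  · ext m
    rw [EA_aeval_coeff, ht m, coeff_C_mul, coeff_add, coeff_add, coeff_C_mul, hTc]
  · rw [← Set.image_univ, mem_ideal_span_X_image]
    intro m hm
    have hm0 : m ≠ 0 := by
      intro h
      rw [mem_support_iff, hTc, ht0 m h] at hm
      exact hm rfl
    obtain ⟨i, hi⟩ := Finsupp.ne_iff.mp hm0
    exact ⟨i, Set.mem_univ _, by simpa using hi⟩

end Pool.Agent.U41.OD
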